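import Mathlib
import Pool.Agent.Y168.FK.Leg

/-!
# The ternary form `w^2 + a^2 + ab + b^2`

Every positive integer which is not of the form `9^k (9m+6)` is represented by `w^2 + a^2 + ab + b^2`, and even
with `a, b` not both even.
-/

set_option autoImplicit false

namespace Pool.Agent.W2helper65.Tern

/-- the form `w^2 + a^2 + ab + b^2` -/
def f (w a b : ℤ) : ℤ := w ^ 2 + a ^ 2 + a * b + b ^ 2

/-- its polar form -/
def B (w a b w' a' b' : ℤ) : ℤ := 2 * w * w' + 2 * a * a' + a * b' + b * a' + 2 * b * b'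

lemma f_nonneg (w a b : ℤ) : 0 ≤ f w a b := by
  unfold f; nlinarith [sq_nonneg w, sq_nonneg (2 * a + b), sq_nonneg b]

lemma f_eq_zero {w a b : ℤ} (h : f w a b = 0) : w = 0 ∧ a = 0 ∧ b = 0 := by
  unfold f at h
  have h1 : 4 * w ^ 2 + (2 * a + b) ^ 2 + 3 * b ^ 2 = 0 := by linear_combination 4 * h
  have hb : b ^ 2 = 0 := by nlinarith [sq_nonneg w, sq_nonneg (2 * a + b), sq_nonneg b]
  have hb' : b = 0 := by simpa using hb
  subst hb'
  have hw : w ^ 2 = 0 := by nlinarith [sq_nonneg w, sq_nonneg (2 * a + 0)]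
  have ha : (2 * a) ^ 2 = 0 := by nlinarith [sq_nonneg w, sq_nonneg (2 * a + 0)]
  have hw' : w = 0 := by simpa using hw
  have ha' : a = 0 := by simpa using ha
  exact ⟨hw', ha', rfl⟩

/-- rounding: for `t > 0` there is `y` with `|2 (c - t y)| ≤ t` -/
lemma exists_round (c t : ℤ) (ht : 0 < t) : ∃ y : ℤ, 4 * (c - t * y) ^ 2 ≤ t ^ 2 := by
  refine ⟨(2 * c + t) / (2 * t), ?_⟩
  have h1 := Int.emod_add_mul_ediv (2 * c + t) (2 * t)
  have h2 := Int.emod_nonneg (2 * c + t) (by omega : (2 * t) ≠ 0)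
  have h3 := Int.emod_lt_of_pos (2 * c + t) (by omega : 0 < 2 * t)
  set r := (2 * c + t) % (2 * t)
  set k := (2 * c + t) / (2 * t)
  have h4 : 2 * (c - t * k) = r - t := by linarith
  have h5 : 4 * (c - t * k) ^ 2 = (r - t) ^ 2 := by rw [← h4]; ring
  rw [h5]
  have h6 : -t ≤ r - t := by linarith
  have h7 : r - t ≤ t := by linarith
  nlinarith

/-- Davenport–Cassels for the form `f` -/
theorem davenport_cassels (N : ℤ) (_hN : 0 < N) : ∀ t : ℕ, 0 < t → ∀ w a b : ℤ,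
    f w a b = N * (t : ℤ) ^ 2 → ∃ w a b : ℤ, f w a b = N := by
  intro t
  induction t using Nat.strong_induction_on with
  | _ t ih =>
    intro ht w a b h
    have ht' : (0 : ℤ) < t := by exact_mod_cast ht
    obtain ⟨y, hy⟩ := exists_round w t ht'
    obtain ⟨v, hv⟩ := exists_round b t ht'
    obtain ⟨u, hu⟩ := exists_round (2 * a + (b - t * v)) (2 * t) (by linarith)
    set P := w - t * y with hP
    set R := b - t * v with hR
    set Q := a - t * u with hQ
    have hu' : (2 * Q + R) ^ 2 ≤ (t : ℤ) ^ 2 := by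
      have e : 2 * a + R - 2 * t * u = 2 * Q + R := by rw [hQ]; ring
      rw [e] at hu
      nlinarith
    have hlt : f P Q R < (t : ℤ) ^ 2 := by
      have e : 4 * f P Q R = 4 * P ^ 2 + (2 * Q + R) ^ 2 + 3 * R ^ 2 := by unfold f; ring
      nlinarith [sq_nonneg P, sq_nonneg R, sq_nonneg (t : ℤ)]
    by_cases h0 : f P Q R = 0
    · obtain ⟨h1, h2, h3⟩ := f_eq_zero h0
      refine ⟨y, u, v, ?_⟩
      have e1 : w = t * y := by linarith
      have e2 : a = t * u := by linarith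
      have e3 : b = t * v := by linarith
      have e4 : (t : ℤ) ^ 2 * f y u v = (t : ℤ) ^ 2 * N := by
        have : f w a b = (t : ℤ) ^ 2 * f y u v := by rw [e1, e2, e3]; unfold f; ring
        rw [← this, h]; ring
      exact mul_left_cancel₀ (by positivity) e4
    · have hpos : 0 < f P Q R := lt_of_le_of_ne (f_nonneg _ _ _) (Ne.symm h0)
      set t' : ℤ := N * t + t * f y u v - B w a b y u v with ht'def
      have e : (t : ℤ) * t' = f P Q R := by
        rw [ht'def, hP, hQ, hR]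
        unfold f at h
        unfold f B
        linear_combination (-1 : ℤ) * h
      have ht'pos : 0 < t' := by
        have : 0 < (t : ℤ) * t' := by rw [e]; exact hpos
        exact (mul_pos_iff_of_pos_left ht').1 this
      have ht'lt : t' < t := by
        have : (t : ℤ) * t' < t * t := by rw [e, ← sq]; exact hlt
        exact lt_of_mul_lt_mul_left this ht'.le
      obtain ⟨s, hs⟩ := Int.eq_ofNat_of_zero_le ht'pos.le
      set α := f y u v - N with hα
      set β := 2 * N * t - B w a b y u v with hβ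
      apply ih s (by have := ht'lt; rw [hs] at this; exact_mod_cast this)
        (by have := ht'pos; rw [hs] at this; exact_mod_cast this)
        (α * w + β * y) (α * a + β * u) (α * b + β * v)
      rw [← hs]
      have e1 : t' = α * t + β := by rw [ht'def, hα, hβ]; ring
      have e2 : f (α * w + β * y) (α * a + β * u) (α * b + β * v) =
          α ^ 2 * f w a b + α * β * B w a b y u v + β ^ 2 * f y u v := by
        unfold f B; ring
      have e3 : B w a b y u v = 2 * N * t - β := by rw [hβ]; ring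
      have e4 : f y u v = N + α := by rw [hα]; ring
      rw [e1, e2, h, e3, e4]
      ring

/-! ### Squarefree numbers -/

/-- `(-3/n) = (n/3)` for odd `n` prime to `3` -/
lemma jacobi_neg_three {n : ℕ} (hn : Odd n) : jacobiSym (-3) n = jacobiSym n 3 := by
  have h3 : jacobiSym (-3) n = jacobiSym (-(3 : ℕ)) n := by norm_num
  rw [h3, jacobiSym.neg _ hn]
  rcases Nat.odd_mod_four_iff.1 (Nat.odd_iff.1 hn) with h | h
  · rw [ZMod.χ₄_nat_one_mod_four h, one_mul,
      ← jacobiSym.quadratic_reciprocity_one_mod_four h (by decide : Odd 3)]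
  · rw [ZMod.χ₄_nat_three_mod_four h, jacobiSym.quadratic_reciprocity_three_mod_four (by norm_num) h]
    ring

/-- a prime with the necessary properties -/
lemma exists_prime {n e : ℕ} (hn : 0 < n) (ho : Odd n) (h3 : ¬ 3 ∣ n) (he : Nat.Coprime e 24) (M : ℕ) :
    ∃ q : ℕ, M < q ∧ q.Prime ∧ q % 24 = e % 24 ∧ n ∣ q + 3 := by
  have hcop : Nat.Coprime n 24 := by
    have h2 : Nat.Coprime n 2 := by
      rw [Nat.coprime_comm, Nat.coprime_two_left]; exact ho
    have h3' : Nat.Coprime n 3 := by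
      rw [Nat.coprime_comm]; exact (Nat.Prime.coprime_iff_not_dvd Nat.prime_three).2 h3
    have : (24 : ℕ) = 2 ^ 3 * 3 := by norm_num
    rw [this]
    exact Nat.Coprime.mul_right (Nat.Coprime.pow_right 3 h2) h3'
  -- a residue `r ≡ -3 (mod n)`, `r ≡ e (mod 24)`
  obtain ⟨r, hr1, hr2⟩ := Nat.chineseRemainder hcop (3 * n - 3) e
  have hr1' : n ∣ r + 3 := by
    have h1 : r + 3 ≡ 3 * n - 3 + 3 [MOD n] := Nat.ModEq.add_right 3 hr1
    have h2 : 3 * n - 3 + 3 = 3 * n := by omega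
    rw [h2] at h1
    have h3 : 3 * n ≡ 0 [MOD n] := by
      unfold Nat.ModEq; simp
    exact (Nat.modEq_zero_iff_dvd).1 (h1.trans h3)
  have hu : IsUnit ((r : ℕ) : ZMod (n * 24)) := by
    rw [ZMod.isUnit_iff_coprime]
    apply Nat.Coprime.mul_right
    · rw [Nat.coprime_iff_gcd_eq_one]
      have hg : Nat.gcd r n ∣ 3 := by
        have h1 : Nat.gcd r n ∣ r + 3 := (Nat.gcd_dvd_right r n).trans hr1'
        exact (Nat.dvd_add_right (Nat.gcd_dvd_left r n)).1 h1
      rcases (Nat.dvd_prime Nat.prime_three).1 hg with h | h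
      · exact h
      · exact absurd (h ▸ Nat.gcd_dvd_right r n) h3
    · have : Nat.gcd r 24 = Nat.gcd e 24 := hr2.gcd_eq
      rw [Nat.coprime_iff_gcd_eq_one, this]; exact he
  have : NeZero (n * 24) := ⟨by positivity⟩
  obtain ⟨q, hq1, hq2, hq3⟩ := Nat.forall_exists_prime_gt_and_eq_mod hu M
  have hq4 : q ≡ r [MOD n * 24] := (ZMod.natCast_eq_natCast_iff _ _ _).1 hq3
  refine ⟨q, hq1, hq2, ?_, ?_⟩
  · exact (hq4.of_mul_left n).trans hr2
  · have h1 : q ≡ r [MOD n] := hq4.of_mul_right 24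
    have h2 : q + 3 ≡ r + 3 [MOD n] := Nat.ModEq.add_right 3 h1
    exact (Nat.modEq_zero_iff_dvd).1 (h2.trans ((Nat.modEq_zero_iff_dvd).2 hr1'))

/-- `n` is the odd part of `m`, `δ = 1` or `2`; the symbol `(δ n / q)` -/
lemma jac_main {n q : ℕ} (ho : Odd n) (_h3 : ¬ 3 ∣ n) (hq4 : q % 4 = 1) (hd : n ∣ q + 3) :
    jacobiSym n q = jacobiSym n 3 := by
  have hqo : Odd q := Nat.odd_iff.2 (by omega)
  rw [← jacobiSym.quadratic_reciprocity_one_mod_four hq4 ho, ← jacobi_neg_three ho]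
  apply jacobiSym.mod_left'
  apply Int.emod_eq_emod_iff_emod_sub_eq_zero.2
  apply Int.emod_eq_zero_of_dvd
  have : ((q : ℕ) : ℤ) - (-3) = ((q + 3 : ℕ) : ℤ) := by push_cast; ring
  rw [this]
  exact_mod_cast hd

lemma jac_two_five {q : ℕ} (h : q % 8 = 5) : jacobiSym 2 q = -1 := by
  rw [jacobiSym.at_two (Nat.odd_iff.2 (by omega))]
  have : (q : ZMod 8) = 5 := by
    have : ((q % 8 : ℕ) : ZMod 8) = q := by simp
    rw [← this, h]; rfl
  rw [this]; decide

lemma jac3 (n : ℕ) : jacobiSym n 3 = if n % 3 = 0 then 0 else if n % 3 = 1 then 1 else -1 := by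
  rw [jacobiSym.mod_left]
  have h : ((n : ℤ) % (3 : ℕ)) = ((n % 3 : ℕ) : ℤ) := by push_cast; rfl
  rw [h]
  have h3 : n % 3 < 3 := Nat.mod_lt _ (by norm_num)
  interval_cases n % 3
  · norm_num
  · norm_num
  · norm_num

lemma root_of_jac {q : ℕ} (hq : q.Prime) {c : ℤ} (h : jacobiSym c q = 1) : ∃ w : ℤ, (q : ℤ) ∣ w ^ 2 - c := by
  have : Fact q.Prime := ⟨hq⟩
  have : NeZero q := ⟨hq.ne_zero⟩
  exact Pool.Agent.Y168.FK.sq_lift c (ZMod.isSquare_of_jacobiSym_eq_one h)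

lemma not_sq_mul {q r : ℕ} (hq : q.Prime) (hr : ¬ q ∣ r) (x : ℤ) : x ^ 2 ≠ r * q := by
  intro h
  have h1 : (q : ℤ) ∣ x ^ 2 := ⟨r, by rw [h]; ring⟩
  have h2 : (q : ℤ) ∣ x := (Nat.prime_iff_prime_int.1 hq).dvd_of_dvd_pow h1
  obtain ⟨y, rfl⟩ := h2
  have h3 : (q : ℤ) * (q * y ^ 2) = q * r := by linear_combination h
  have h4 : (q : ℤ) * y ^ 2 = r := mul_left_cancel₀ (by exact_mod_cast hq.ne_zero) h3
  exact hr (by exact_mod_cast Dvd.intro _ h4)

/-- the odd part and its cofactor for a squarefree number -/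
lemma odd_part {N : ℕ} (hN : Squarefree N) : ∃ n δ : ℕ, N = δ * n ∧ Odd n ∧ (δ = 1 ∨ δ = 2) := by
  rcases Nat.even_or_odd N with h | h
  · obtain ⟨k, hk⟩ := h
    have h2 : N = 2 * k := by omega
    refine ⟨k, 2, h2, ?_, Or.inr rfl⟩
    by_contra hk2
    rw [Nat.not_odd_iff_even] at hk2
    obtain ⟨j, hj⟩ := hk2
    have : 2 * 2 ∣ N := ⟨j, by omega⟩
    have := hN 2 this
    exact absurd (Nat.isUnit_iff.1 this) (by norm_num)
  · exact ⟨N, 1, by ring, h, Or.inl rfl⟩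

/-- `N z^2 = x^2 + y^2 + 3 u^2` for squarefree `N` prime to `3` -/
lemma rat_one {N : ℕ} (hN : Squarefree N) (h3 : ¬ 3 ∣ N) :
    ∃ x y u z : ℤ, z ≠ 0 ∧ x ^ 2 + y ^ 2 + 3 * u ^ 2 = N * z ^ 2 := by
  obtain ⟨n, δ, hNn, hn, hδ⟩ := odd_part hN
  have hN0 : 0 < N := Nat.pos_of_ne_zero hN.ne_zero
  have hn0 : 0 < n := by
    rcases Nat.eq_zero_or_pos n with h | h
    · subst h; simp at hNn; omega
    · exact h
  have hn3 : ¬ 3 ∣ n := fun h => h3 (hNn ▸ Dvd.dvd.mul_left h δ)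
  -- the residue modulo 24
  obtain ⟨e, he, he3, he8⟩ : ∃ e : ℕ, Nat.Coprime e 24 ∧ e % 3 = N % 3 ∧
      ((δ = 1 ∧ e % 8 = 1) ∨ (δ = 2 ∧ e % 8 = 5)) := by
    have hN3 : N % 3 = 1 ∨ N % 3 = 2 := by omega
    rcases hδ with h | h
    · rcases hN3 with h' | h'
      · exact ⟨1, by norm_num, by omega, Or.inl ⟨h, by norm_num⟩⟩
      · exact ⟨17, by norm_num, by omega, Or.inl ⟨h, by norm_num⟩⟩
    · rcases hN3 with h' | h'
      · exact ⟨13, by norm_num, by omega, Or.inr ⟨h, by norm_num⟩⟩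
      · exact ⟨5, by norm_num, by omega, Or.inr ⟨h, by norm_num⟩⟩
  obtain ⟨q, hqM, hq, hq24, hqn⟩ := exists_prime hn0 hn hn3 he (N + 3)
  have hq4 : q % 4 = 1 := by rcases he8 with ⟨-, h⟩ | ⟨-, h⟩ <;> omega
  have hqo : Odd q := Nat.odd_iff.2 (by omega)
  have hqN : ¬ q ∣ N := fun h => by have := Nat.le_of_dvd hN0 h; omega
  have hq3 : ¬ q ∣ 3 := fun h => by have := Nat.le_of_dvd (by norm_num) h; omega
  have hcN3 : Nat.Coprime N 3 := by
    rw [Nat.coprime_comm]; exact (Nat.Prime.coprime_iff_not_dvd Nat.prime_three).2 h3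
  have hcNq : Nat.Coprime N q := by
    rw [Nat.coprime_comm]; exact (Nat.Prime.coprime_iff_not_dvd hq).2 hqN
  have hc3q : Nat.Coprime 3 q := by
    rw [Nat.coprime_comm]; exact (Nat.Prime.coprime_iff_not_dvd hq).2 hq3
  -- the symbol
  have hj : jacobiSym (N * 3) q = 1 := by
    have h1 : jacobiSym n q = jacobiSym n 3 := jac_main hn hn3 hq4 hqn
    have h2 : jacobiSym (3 : ℕ) q = jacobiSym q 3 := by
      rw [← jacobiSym.quadratic_reciprocity_one_mod_four hq4 (by decide : Odd 3)]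
    have h3' : jacobiSym (N * 3) q = jacobiSym δ q * jacobiSym n q * jacobiSym (3 : ℕ) q := by
      rw [← jacobiSym.mul_left, ← jacobiSym.mul_left, hNn]
      push_cast; rfl
    rw [h3', h1, h2, jac3, jac3]
    have hn3' : n % 3 = 1 ∨ n % 3 = 2 := by omega
    have hq3' : q % 3 = N % 3 := by omega
    rcases he8 with ⟨hd, h8⟩ | ⟨hd, h8⟩
    · subst hd
      rw [one_mul] at hNn
      rw [Nat.cast_one, jacobiSym.one_left, hq3', hNn]
      rcases hn3' with h | h <;> simp [h]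
    · subst hd
      have h5 : jacobiSym ((2 : ℕ) : ℤ) q = -1 := by
        have := jac_two_five (q := q) (by omega)
        exact_mod_cast this
      rw [h5, hq3']
      rcases hn3' with h | h
      · have : N % 3 = 2 := by omega
        simp [h, this]
      · have : N % 3 = 1 := by omega
        simp [h, this]
  obtain ⟨x, y, z, hz, hxyz⟩ := Pool.Agent.Y168.FK.legendre (r := N) (b := 3) (c := q) hN0 (by norm_num)
    hq.pos hcN3 hcNq hc3q
    (by
      refine ⟨3, ?_⟩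
      have h1 : N ∣ 3 * (q + 3) := by
        rcases hδ with h | h
        · subst h; rw [one_mul] at hNn; rw [hNn]; exact Dvd.dvd.mul_left hqn 3
        · subst h
          rw [hNn]
          have h2 : 2 ∣ q + 3 := by omega
          have hc : Nat.Coprime 2 n := Nat.coprime_two_left.2 hn
          exact Dvd.dvd.mul_left (Nat.Coprime.mul_dvd_of_dvd_of_dvd hc h2 hqn) 3
      have h2 : ((3 * (q + 3) : ℕ) : ℤ) = 3 ^ 2 + ((3 : ℕ) : ℤ) * (q : ℤ) := by push_cast; ring
      rw [← h2]; exact_mod_cast h1)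
    (by
      refine ⟨1, ?_⟩
      have h1 : (3 : ℤ) ∣ 1 ^ 2 - (N : ℤ) * q := by
        have h2 : q % 3 = N % 3 := by omega
        have h3' : (N * q) % 3 = 1 := by
          rw [Nat.mul_mod, h2]
          have : N % 3 = 1 ∨ N % 3 = 2 := by omega
          rcases this with h | h <;> simp [h]
        have h4 : ((N * q : ℕ) : ℤ) % 3 = 1 := by exact_mod_cast h3'
        push_cast at h4
        omega
      exact_mod_cast h1)
    (by
      obtain ⟨w, hw⟩ := root_of_jac hq hj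
      exact ⟨w, by exact_mod_cast hw⟩)
    (fun x => not_sq_mul hq hqN x)
    (fun x => not_sq_mul (q := 3) Nat.prime_three h3 x)
    (fun x => not_sq_mul hq hq3 x)
  -- `q = s^2 + t^2`
  have : Fact q.Prime := ⟨hq⟩
  obtain ⟨s, t, hst⟩ := Nat.Prime.sq_add_sq (p := q) (by omega)
  refine ⟨s * y, t * y, x, z, hz, ?_⟩
  have hq' : (q : ℤ) = (s : ℤ) ^ 2 + (t : ℤ) ^ 2 := by rw [← hst]; push_cast; rfl
  push_cast at hxyz
  rw [← hxyz, hq']; ring

/-- `3 m z^2 = x^2 + y^2 + 3 u^2` for `m ≡ 1 (mod 3)` squarefree -/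
lemma rat_two {m : ℕ} (hm : Squarefree m) (h3 : m % 3 = 1) :
    ∃ x y u z : ℤ, z ≠ 0 ∧ x ^ 2 + y ^ 2 + 3 * u ^ 2 = (3 * m : ℕ) * z ^ 2 := by
  obtain ⟨n, δ, hNn, hn, hδ⟩ := odd_part hm
  have hm0 : 0 < m := Nat.pos_of_ne_zero hm.ne_zero
  have h3m : ¬ 3 ∣ m := by omega
  by_cases hsq : IsSquare m
  · obtain ⟨k, hk⟩ := hsq
    refine ⟨0, 0, k, 1, one_ne_zero, ?_⟩
    rw [hk]; push_cast; ring
  have hn0 : 0 < n := by
    rcases Nat.eq_zero_or_pos n with h | h
    · subst h; simp at hNn; omega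
    · exact h
  have hn3 : ¬ 3 ∣ n := fun h => h3m (hNn ▸ Dvd.dvd.mul_left h δ)
  obtain ⟨e, he, he8⟩ : ∃ e : ℕ, Nat.Coprime e 24 ∧
      ((δ = 1 ∧ e % 8 = 1) ∨ (δ = 2 ∧ e % 8 = 5)) := by
    rcases hδ with h | h
    · exact ⟨1, by norm_num, Or.inl ⟨h, by norm_num⟩⟩
    · exact ⟨5, by norm_num, Or.inr ⟨h, by norm_num⟩⟩
  obtain ⟨q, hqM, hq, hq24, hqn⟩ := exists_prime hn0 hn hn3 he (m + 3)
  have hq4 : q % 4 = 1 := by rcases he8 with ⟨-, h⟩ | ⟨-, h⟩ <;> omega
  have hqo : Odd q := Nat.odd_iff.2 (by omega)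
  have hqm : ¬ q ∣ m := fun h => by have := Nat.le_of_dvd hm0 h; omega
  have hq3 : ¬ q ∣ 3 := fun h => by have := Nat.le_of_dvd (by norm_num) h; omega
  have hcm3 : Nat.Coprime m 3 := by
    rw [Nat.coprime_comm]; exact (Nat.Prime.coprime_iff_not_dvd Nat.prime_three).2 h3m
  have hcmq : Nat.Coprime m q := by
    rw [Nat.coprime_comm]; exact (Nat.Prime.coprime_iff_not_dvd hq).2 hqm
  have hj : jacobiSym m q = 1 := by
    have h1 : jacobiSym n q = jacobiSym n 3 := jac_main hn hn3 hq4 hqn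
    have h3' : jacobiSym m q = jacobiSym δ q * jacobiSym n q := by
      rw [← jacobiSym.mul_left, hNn]
      push_cast; rfl
    rw [h3', h1, jac3]
    rcases he8 with ⟨hd, h8⟩ | ⟨hd, h8⟩
    · subst hd
      rw [one_mul] at hNn
      rw [Nat.cast_one, jacobiSym.one_left, ← hNn]
      simp [h3]
    · subst hd
      have h5 : jacobiSym ((2 : ℕ) : ℤ) q = -1 := by
        have := jac_two_five (q := q) (by omega)
        exact_mod_cast this
      have h6 : n % 3 = 2 := by omega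
      rw [h5]
      simp [h6]
  obtain ⟨w, hw⟩ := root_of_jac hq hj
  obtain ⟨x, y, z, hz, hxyz⟩ := Pool.Agent.Y168.FK.legendre (r := m) (b := 1) (c := 3 * q) hm0 (by norm_num)
    (by have := hq.pos; omega) (Nat.coprime_one_right m) (Nat.Coprime.mul_right hcm3 hcmq)
    (Nat.coprime_one_left _)
    (by
      refine ⟨3, ?_⟩
      have h1 : m ∣ 3 * (q + 3) := by
        rcases hδ with h | h
        · subst h; rw [one_mul] at hNn; rw [hNn]; exact Dvd.dvd.mul_left hqn 3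
        · subst h
          rw [hNn]
          have h2 : 2 ∣ q + 3 := by omega
          have hc : Nat.Coprime 2 n := Nat.coprime_two_left.2 hn
          exact Dvd.dvd.mul_left (Nat.Coprime.mul_dvd_of_dvd_of_dvd hc h2 hqn) 3
      have h2 : ((3 * (q + 3) : ℕ) : ℤ) = 3 ^ 2 + ((1 : ℕ) : ℤ) * ((3 * q : ℕ) : ℤ) := by push_cast; ring
      rw [← h2]; exact_mod_cast h1)
    ⟨0, by push_cast; exact one_dvd _⟩
    (by
      -- combine `w` modulo `q` and `1` modulo `3`
      have hc : IsCoprime (3 : ℤ) (q : ℤ) := by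
        have : Nat.Coprime 3 q := by
          rw [Nat.coprime_comm]; exact (Nat.Prime.coprime_iff_not_dvd hq).2 hq3
        exact_mod_cast Nat.isCoprime_iff_coprime.2 this
      obtain ⟨α, β, hαβ⟩ := hc
      refine ⟨w * (α * 3) + β * q, ?_⟩
      have hcop : IsCoprime (3 : ℤ) (q : ℤ) := ⟨α, β, hαβ⟩
      have h1 : (3 : ℤ) ∣ (w * (α * 3) + β * q) ^ 2 - m * 1 := by
        have e : (w * (α * 3) + β * q) = 1 + 3 * (α * (w - 1)) := by linear_combination hαβ
        rw [e]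
        have h2 : (m : ℤ) % 3 = 1 := by exact_mod_cast h3
        have h4 : (3 : ℤ) ∣ 1 - m := by omega
        obtain ⟨k, hk⟩ := h4
        exact ⟨2 * (α * (w - 1)) + 3 * (α * (w - 1)) ^ 2 + k, by linear_combination hk⟩
      have h2 : (q : ℤ) ∣ (w * (α * 3) + β * q) ^ 2 - m * 1 := by
        have e : (w * (α * 3) + β * q) = w + q * (β * (1 - w)) := by linear_combination w * hαβ
        rw [e]
        obtain ⟨k, hk⟩ := hw
        exact ⟨2 * w * (β * (1 - w)) + q * (β * (1 - w)) ^ 2 + k, by linear_combination hk⟩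
      have := hcop.mul_dvd h1 h2
      push_cast
      exact this)
    (fun x => by
      have := not_sq_mul hq (r := 3 * m) (by
        rw [Nat.Prime.dvd_mul hq]; push Not; exact ⟨hq3, hqm⟩) x
      intro h
      apply this
      rw [h]; push_cast; ring)
    (fun x => by
      intro h
      push_cast at h
      rw [mul_one] at h
      apply hsq
      refine ⟨x.natAbs, ?_⟩
      have : ((x.natAbs * x.natAbs : ℕ) : ℤ) = m := by
        rw [Int.natCast_mul, Int.natAbs_mul_self', ← sq]; exact h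
      exact_mod_cast this.symm)
    (fun x => by
      have := not_sq_mul hq hq3 x
      intro h
      apply this
      rw [h]; push_cast; ring)
  have : Fact q.Prime := ⟨hq⟩
  obtain ⟨s, t, hst⟩ := Nat.Prime.sq_add_sq (p := q) (by omega)
  refine ⟨3 * s * y, 3 * t * y, x, z, hz, ?_⟩
  have hq' : (q : ℤ) = (s : ℤ) ^ 2 + (t : ℤ) ^ 2 := by rw [← hst]; push_cast; rfl
  push_cast at hxyz ⊢
  rw [hq'] at hxyz
  linear_combination 3 * hxyz

/-- from `x^2 + y^2 + 3 u^2` to `f` -/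
lemma to_int {N : ℕ} (hN : 0 < N) (h : ∃ x y u z : ℤ, z ≠ 0 ∧ x ^ 2 + y ^ 2 + 3 * u ^ 2 = N * z ^ 2) :
    ∃ w a b : ℤ, f w a b = N := by
  obtain ⟨x, y, u, z, hz, h⟩ := h
  apply davenport_cassels (N : ℤ) (by exact_mod_cast hN) z.natAbs (Int.natAbs_pos.2 hz) x (y - u) (2 * u)
  have : ((z.natAbs : ℕ) : ℤ) ^ 2 = z ^ 2 := Int.natAbs_sq z
  rw [this, ← h]
  unfold f; ring

lemma rep_squarefree {N : ℕ} (hN : Squarefree N) (h : N % 9 ≠ 6) : ∃ w a b : ℤ, f w a b = N := by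
  have hN0 : 0 < N := Nat.pos_of_ne_zero hN.ne_zero
  by_cases h3 : 3 ∣ N
  · obtain ⟨m, rfl⟩ := h3
    have hm : Squarefree m := hN.of_mul_right
    have hm3 : ¬ 3 ∣ m := by
      rintro ⟨k, rfl⟩
      have : 3 * 3 ∣ 3 * (3 * k) := ⟨k, by ring⟩
      exact absurd (Nat.isUnit_iff.1 (hN 3 this)) (by norm_num)
    exact to_int hN0 (rat_two hm (by omega))
  · exact to_int hN0 (rat_one hN h3)

/-- `N` is not of the form `9^k (9m+6)` -/
def Adm (N : ℕ) : Prop := ∀ k m : ℕ, N ≠ 9 ^ k * (9 * m + 6)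

/-- the theorem on representations -/
theorem rep {N : ℕ} (hN : 0 < N) (h : Adm N) : ∃ w a b : ℤ, f w a b = N := by
  obtain ⟨s, t, hst, hs⟩ := Nat.sq_mul_squarefree N
  have hst' : N = t ^ 2 * s := by rw [← hst]
  have ht0 : t ≠ 0 := by rintro rfl; simp at hst'; omega
  have h6 : s % 9 ≠ 6 := by
    intro h9
    obtain ⟨e, c, hc, rfl⟩ := Nat.exists_eq_pow_mul_and_not_dvd ht0 3 (by norm_num)
    -- `c^2 ≡ 1 (mod 3)`
    have hc2 : (c ^ 2) % 3 = 1 := by
      have : c % 3 = 1 ∨ c % 3 = 2 := by omega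
      rw [Nat.pow_mod]
      rcases this with h | h <;> simp [h]
    obtain ⟨j, hj⟩ : ∃ j, c ^ 2 = 3 * j + 1 := ⟨c ^ 2 / 3, by omega⟩
    obtain ⟨i, hi⟩ : ∃ i, s = 9 * i + 6 := ⟨s / 9, by omega⟩
    apply h e ((3 * j + 1) * i + 2 * j)
    rw [hst', mul_pow, hj, hi, ← pow_mul, mul_comm e 2, pow_mul]
    norm_num
    ring
  obtain ⟨w, a, b, hwab⟩ := rep_squarefree hs h6
  refine ⟨t * w, t * a, t * b, ?_⟩
  have : f (t * w) (t * a) (t * b) = (t : ℤ) ^ 2 * f w a b := by unfold f; ring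
  rw [this, hwab, hst']; push_cast; ring

lemma adm_quarter {N : ℕ} (h : Adm (4 * N)) : Adm N := by
  intro k m hk
  apply h k (4 * m + 2)
  rw [hk]; ring

/-- a representation with `a, b` not both even -/
theorem rep_odd : ∀ N : ℕ, 0 < N → Adm N → ∃ w a b : ℤ, f w a b = N ∧ (a % 2 ≠ 0 ∨ b % 2 ≠ 0) := by
  intro N
  induction N using Nat.strong_induction_on with
  | _ N ih =>
    intro hN h
    obtain ⟨w, a, b, hf⟩ := rep hN h
    by_cases hab : a % 2 ≠ 0 ∨ b % 2 ≠ 0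
    · exact ⟨w, a, b, hf, hab⟩
    push Not at hab
    obtain ⟨a', ha'⟩ : ∃ a', a = 2 * a' := ⟨a / 2, by omega⟩
    obtain ⟨b', hb'⟩ : ∃ b', b = 2 * b' := ⟨b / 2, by omega⟩
    subst ha' hb'
    rcases Int.emod_two_eq_zero_or_one w with hw | hw
    · -- `N = 4 N'`
      obtain ⟨w', rfl⟩ : ∃ w', w = 2 * w' := ⟨w / 2, by omega⟩
      have h4 : (4 : ℤ) * f w' a' b' = N := by rw [← hf]; unfold f; ring
      obtain ⟨N', rfl⟩ : ∃ N', N = 4 * N' := by
        have : (4 : ℤ) ∣ N := ⟨_, h4.symm⟩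
        have : 4 ∣ N := by exact_mod_cast this
        exact this
      obtain ⟨w1, a1, b1, h1, h2⟩ := ih N' (by omega) (by omega) (adm_quarter h)
      rcases h2 with h2 | h2
      · -- reflect in `(1, 0, -1)`
        refine ⟨2 * w1 - (2 * w1 - a1 - 2 * b1), 2 * a1, 2 * b1 + (2 * w1 - a1 - 2 * b1), ?_, ?_⟩
        · push_cast; rw [← h1]; unfold f; ring
        · right; omega
      · refine ⟨2 * w1 - (2 * w1 - 2 * a1 - b1), 2 * a1 + (2 * w1 - 2 * a1 - b1), 2 * b1, ?_, ?_⟩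
        · push_cast; rw [← h1]; unfold f; ring
        · left; omega
    · -- `w` odd
      by_cases hb2 : b' % 2 = 0
      · refine ⟨w - (w - 2 * a' - b'), 2 * a' + (w - 2 * a' - b'), 2 * b', ?_, ?_⟩
        · rw [← hf]; unfold f; ring
        · left; omega
      · by_cases ha2 : a' % 2 = 0
        · refine ⟨w - (w - a' - 2 * b'), 2 * a', 2 * b' + (w - a' - 2 * b'), ?_, ?_⟩
          · rw [← hf]; unfold f; ring
          · right; omega
        · -- reflect in `(1, -1, 1)`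
          refine ⟨w - (w - a' + b'), 2 * a' + (w - a' + b'), 2 * b' - (w - a' + b'), ?_, ?_⟩
          · rw [← hf]; unfold f; ring
          · left; omega

/-- `u^2 + v^2 + 3 z^2` is never `9^k (9m+6)` -/
theorem not_rep (k : ℕ) : ∀ (m : ℕ) (u v z : ℤ), u ^ 2 + v ^ 2 + 3 * z ^ 2 ≠ ((9 ^ k * (9 * m + 6) : ℕ) : ℤ) := by
  have key : ∀ u v z : ℤ, (3 : ℤ) ∣ u ^ 2 + v ^ 2 + 3 * z ^ 2 → (3 : ℤ) ∣ u ∧ (3 : ℤ) ∣ v := by
    intro u v z h
    have hu : u % 3 = 0 ∨ u % 3 = 1 ∨ u % 3 = 2 := by omega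
    have hv : v % 3 = 0 ∨ v % 3 = 1 ∨ v % 3 = 2 := by omega
    have h1 : (u ^ 2 + v ^ 2) % 3 = 0 := by
      have : (3 : ℤ) ∣ u ^ 2 + v ^ 2 := (Int.dvd_add_left (Dvd.intro _ rfl)).1 h
      omega
    have h2 : ((u % 3) ^ 2 + (v % 3) ^ 2) % 3 = 0 := by
      have e : (u ^ 2 + v ^ 2) % 3 = ((u % 3) ^ 2 + (v % 3) ^ 2) % 3 := by
        simp [Int.add_emod, pow_two, Int.mul_emod]
      rw [← e]; exact h1
    rcases hu with hu | hu | hu <;> rcases hv with hv | hv | hv <;> rw [hu, hv] at h2 <;> norm_num at h2 <;>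
      constructor <;> omega
  induction k with
  | zero =>
    intro m u v z h
    rw [pow_zero, one_mul] at h
    push_cast at h
    obtain ⟨⟨u', rfl⟩, ⟨v', rfl⟩⟩ := key u v z ⟨3 * m + 2, by rw [h]; ring⟩
    have h1 : 3 * u' ^ 2 + 3 * v' ^ 2 + z ^ 2 = 3 * m + 2 := by linarith
    have h2 : z ^ 2 % 3 = 2 := by omega
    have hz : z % 3 = 0 ∨ z % 3 = 1 ∨ z % 3 = 2 := by omega
    have h3 : (z % 3) ^ 2 % 3 = 2 := by
      have e : z ^ 2 % 3 = (z % 3) ^ 2 % 3 := by simp [pow_two, Int.mul_emod]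
      rw [← e]; exact h2
    rcases hz with hz | hz | hz <;> rw [hz] at h3 <;> norm_num at h3
  | succ k ih =>
    intro m u v z h
    obtain ⟨⟨u', rfl⟩, ⟨v', rfl⟩⟩ := key u v z ⟨3 * (9 ^ k * (9 * m + 6)), by rw [h]; push_cast; ring⟩
    have h1 : 3 * u' ^ 2 + 3 * v' ^ 2 + z ^ 2 = 3 * ((9 ^ k * (9 * m + 6) : ℕ) : ℤ) := by
      push_cast at h ⊢
      rw [pow_succ (9 : ℤ) k] at h
      linarith
    have h2 : (3 : ℤ) ∣ z ^ 2 := ⟨((9 ^ k * (9 * m + 6) : ℕ) : ℤ) - u' ^ 2 - v' ^ 2, by linarith⟩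
    obtain ⟨z', rfl⟩ := (Int.prime_three).dvd_of_dvd_pow h2
    apply ih m u' v' z'
    linarith

end Pool.Agent.W2helper65.Tern
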